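import Pool.Agent.H41.CP.Stmts

/-!
# Project CP of helper41: the lemma S_KILLER
-/

set_option autoImplicit false

namespace Pool.Agent.H286.CP

open Pool.Agent.H41.CP

theorem ais (g : P6) (x : Fin 6) : g (g⁻¹ x) = x := Equiv.apply_symm_apply g x

theorem ias (g : P6) (x : Fin 6) : g⁻¹ (g x) = x := Equiv.symm_apply_apply g x

/-- the last step -/
theorem last (g1 : P6) (a b c d s3 x3 t3 : Fin 6) (hab : a ≠ b) (hac : a ≠ c) (had : a ≠ d)
    (hbc : b ≠ c) (hbd : b ≠ d) (hcd : c ≠ d)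
    (h1 : (g1 * Equiv.swap a b) s3 = g1 s3 ∨ (g1 * Equiv.swap a b) x3 = t3)
    (h2 : (g1 * Equiv.swap c d) s3 = g1 s3 ∨ (g1 * Equiv.swap c d) x3 = t3)
    (h3 : (g1 * Equiv.swap a b * Equiv.swap c d) s3 = g1 s3 ∨
      (g1 * Equiv.swap a b * Equiv.swap c d) x3 = t3)
    (ht : t3 ≠ g1 s3) (hs : s3 = a ∨ s3 = b ∨ s3 = c ∨ s3 = d)
    (hx : x3 = a ∨ x3 = b ∨ x3 = c ∨ x3 = d) (hne : s3 ≠ x3) : False := by
  have hinj : ∀ u v, g1 u = g1 v → u = v := fun u v h => g1.injective h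
  rw [Equiv.Perm.mul_apply, Equiv.Perm.mul_apply] at h1 h2
  rw [Equiv.Perm.mul_apply, Equiv.Perm.mul_apply, Equiv.Perm.mul_apply,
    Equiv.Perm.mul_apply] at h3
  have sab : ∀ z, z ≠ a → z ≠ b → Equiv.swap a b z = z := fun z h h' =>
    Equiv.swap_apply_of_ne_of_ne h h'
  have scd : ∀ z, z ≠ c → z ≠ d → Equiv.swap c d z = z := fun z h h' =>
    Equiv.swap_apply_of_ne_of_ne h h'
  have e1 := sab c hac.symm hbc.symm
  have e2 := sab d had.symm hbd.symm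
  have e3 := scd a hac had
  have e4 := scd b hbc hbd
  rcases hs with rfl | rfl | rfl | rfl <;> rcases hx with rfl | rfl | rfl | rfl <;>
    simp only [Equiv.swap_apply_left, Equiv.swap_apply_right, e1, e2, e3, e4,
      EmbeddingLike.apply_eq_iff_eq] at h1 h2 h3 <;> grind

/-- the property `Q` for the inverses -/
theorem q_inv {F : Fin 3 → P6} {U S : Finset (Fin 6)} (h : Q (inv3 F) U S) : Q F S U := by
  obtain ⟨h1, h2, h3⟩ := h
  refine ⟨h2, h1, fun x hx => ?_⟩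
  have hsurj : ∀ i, ∀ x ∈ S, ∃ c ∈ U, (F i)⁻¹ c = x := by
    intro i x hx
    have himg : U.image (fun c => (F i)⁻¹ c) = S := by
      apply Finset.eq_of_subset_of_card_le
      · intro y hy
        obtain ⟨c, hc, rfl⟩ := Finset.mem_image.1 hy
        exact (h3 c hc).1 i
      · rw [Finset.card_image_of_injective _ ((F i)⁻¹).injective, h1, h2]
    rw [← himg] at hx
    obtain ⟨c, hc, hcx⟩ := Finset.mem_image.1 hx
    exact ⟨c, hc, hcx⟩
  have hmem : ∀ i, F i x ∈ U := by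
    intro i
    obtain ⟨c, hc, hcx⟩ := hsurj i x hx
    rw [← hcx, ais]
    exact hc
  refine ⟨hmem, ?_⟩
  intro i k hik
  have hik' : F i x = F k x := hik
  apply (h3 (F i x) (hmem i)).2
  show (F i)⁻¹ (F i x) = (F k)⁻¹ (F i x)
  rw [ias, hik', ias]

theorem mem_of_nodup {s t a b c d : Fin 6} (h : [s, t, a, b, c, d].Nodup) (x : Fin 6)
    (h1 : x ≠ s) (h2 : x ≠ t) : x = a ∨ x = b ∨ x = c ∨ x = d := by
  have hcard : [s, t, a, b, c, d].toFinset.card = 6 := by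
    rw [List.toFinset_card_of_nodup h]
    rfl
  have huniv : [s, t, a, b, c, d].toFinset = Finset.univ := by
    apply Finset.eq_univ_of_card
    rw [hcard]
    rfl
  have hx : x ∈ [s, t, a, b, c, d].toFinset := by
    rw [huniv]
    exact Finset.mem_univ x
  simp only [List.mem_toFinset, List.mem_cons, List.not_mem_nil, or_false] at hx
  tauto

theorem killer (hbb : S_BB) (hrr : S_RR) (hrc : S_RC) (hf3 : S_F3) (hf2 : S_F2) : S_KILLER := by
  intro H F ⟨f, hf⟩ hbad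
  by_contra hQ
  push Not at hQ
  have hR : ∀ (g g' : P6) (S T S' T' : Finset (Fin 6)), RB F g S T → RB F g' S' T' →
      S = S' ∧ ∀ x ∈ S, g x = g' x := by
    intro g g' S T S' T' h h'
    obtain ⟨h1, h2, h3⟩ := hrr F g g' S T S' T' h h'
    have hS : S = S' := by
      rcases h2 with h2 | ⟨_, h2⟩
      · exact h2
      · exact absurd h2 (hQ _ _)
    refine ⟨hS, fun x hx => h3 x ?_⟩
    rw [← hS, Finset.inter_self]
    exact hx
  have hC : ∀ (g g' : P6) (S T S' T' : Finset (Fin 6)), RB (inv3 F) g⁻¹ T S →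
      RB (inv3 F) g'⁻¹ T' S' → T = T' ∧ ∀ c ∈ T, g⁻¹ c = g'⁻¹ c := by
    intro g g' S T S' T' h h'
    obtain ⟨h1, h2, h3⟩ := hrr (inv3 F) g⁻¹ g'⁻¹ T S T' S' h h'
    have hS : T = T' := by
      rcases h2 with h2 | ⟨_, h2⟩
      · exact h2
      · exact absurd (q_inv h2) (hQ _ _)
    refine ⟨hS, fun x hx => h3 x ?_⟩
    rw [← hS, Finset.inter_self]
    exact hx
  by_cases c1 : ∀ g, Av H g → ∃ S T, RB F g S T
  · obtain ⟨S, T, hST⟩ := c1 f hf
    obtain ⟨g, hg, x, hx, hne⟩ := hf3 H f hf S hST.1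
    obtain ⟨S', T', hST'⟩ := c1 g hg
    exact hne ((hR f g S T S' T' hST hST').2 x hx).symm
  by_cases c2 : ∀ g, Av H g → ∃ S T, RB (inv3 F) g⁻¹ T S
  · obtain ⟨S, T, hST⟩ := c2 f hf
    obtain ⟨g, hg, x, hx, hne⟩ := hf3 H f hf (T.image fun c => f⁻¹ c) (by
      rw [Finset.card_image_of_injective _ (f⁻¹).injective]
      exact hST.1)
    obtain ⟨S', T', hST'⟩ := c2 g hg
    obtain ⟨c, hc, rfl⟩ := Finset.mem_image.1 hx
    apply hne
    have h1 := (hC f g S T S' T' hST hST').2 c hc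
    rw [ais, h1, ais]
  push Not at c1 c2
  obtain ⟨g2, hg2, hn2⟩ := c1
  obtain ⟨g1, hg1, hn1⟩ := c2
  obtain ⟨S', T', hC2⟩ : ∃ S T, RB (inv3 F) g2⁻¹ T S := by
    rcases hbb F g2 (hbad g2 hg2) with ⟨S, T, h⟩ | h
    · exact absurd h (hn2 S T)
    · exact h
  obtain ⟨S, T, hR1⟩ : ∃ S T, RB F g1 S T := by
    rcases hbb F g1 (hbad g1 hg1) with h | ⟨S, T, h⟩
    · exact h
    · exact absurd h (hn1 S T)
  obtain ⟨hSS, hTT, hx12⟩ := hrc F g1 g2 S T S' T' hR1 hC2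
  have hRC : ∀ g, Av H g → (∀ x ∈ S, g x = g1 x) ∨ (∀ c ∈ T', g⁻¹ c = g2⁻¹ c) := by
    intro g hg
    rcases hbb F g (hbad g hg) with ⟨S₁, T₁, h⟩ | ⟨S₁, T₁, h⟩
    · left
      intro x hx
      exact ((hR g1 g S T S₁ T₁ hR1 h).2 x hx).symm
    · right
      intro x hx
      exact ((hC g2 g S' T' S₁ T₁ hC2 h).2 x hx).symm
  have hA : ∀ g, Av H g → ∀ x ∈ S, g1 x ∈ T' → g x = g1 x := by
    intro g hg x hx hxT
    rcases hRC g hg with h | h
    · exact h x hx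
    · have e1 := h (g1 x) hxT
      have e2 : g2⁻¹ (g1 x) = x := by
        rw [← hx12 x hx hxT, ias]
      rw [e2] at e1
      rw [← e1, ais]
      rw [e1]
  obtain ⟨s3, hs3, hs3T⟩ : ∃ s3 ∈ S, g1 s3 ∉ T' := by
    by_contra hcon
    push Not at hcon
    obtain ⟨g, hg, x, hx, hne⟩ := hf3 H g1 hg1 S hR1.1
    exact hne (hA g hg x hx (hcon x hx))
  have hgT : ∀ x ∈ S, g1 x ∈ T := by
    intro x hx
    rw [← hR1.2.2 x hx]
    exact Finset.mem_insert_self _ _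
  have hTd : (T \ T').card = 1 := by
    rw [Finset.card_sdiff_of_subset hTT, hR1.2.1, hC2.1]
  have hot : ∀ x ∈ S, x ≠ s3 → g1 x ∈ T' := by
    intro x hx hne
    by_contra hxT
    obtain ⟨u, hu⟩ := Finset.card_eq_one.1 hTd
    have h1 : g1 x ∈ T \ T' := Finset.mem_sdiff.2 ⟨hgT x hx, hxT⟩
    have h2 : g1 s3 ∈ T \ T' := Finset.mem_sdiff.2 ⟨hgT s3 hs3, hs3T⟩
    rw [hu, Finset.mem_singleton] at h1 h2
    exact hne (g1.injective (h1.trans h2.symm))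
  obtain ⟨s1, s2, hs12, hSe⟩ : ∃ s1 s2, s1 ≠ s2 ∧ S.erase s3 = {s1, s2} := by
    have : (S.erase s3).card = 2 := by
      rw [Finset.card_erase_of_mem hs3, hR1.1]
    exact Finset.card_eq_two.1 this
  have hs1 : s1 ≠ s3 ∧ s1 ∈ S := Finset.mem_erase.1 (by rw [hSe]; simp)
  have hs2 : s2 ≠ s3 ∧ s2 ∈ S := Finset.mem_erase.1 (by rw [hSe]; simp)
  have ht1 := hot s1 hs1.2 hs1.1
  have ht2 := hot s2 hs2.2 hs2.1
  obtain ⟨t3, ht3, ht31, ht32⟩ : ∃ t3 ∈ T', t3 ≠ g1 s1 ∧ t3 ≠ g1 s2 := by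
    have h1 : ((T'.erase (g1 s1)).erase (g1 s2)).card = 1 := by
      rw [Finset.card_erase_of_mem, Finset.card_erase_of_mem ht1, hC2.1]
      exact Finset.mem_erase.2 ⟨fun h => hs12 (g1.injective h).symm, ht2⟩
    obtain ⟨u, hu⟩ := Finset.card_eq_one.1 h1
    have hu' : u ∈ (T'.erase (g1 s1)).erase (g1 s2) := by
      rw [hu]
      exact Finset.mem_singleton_self u
    obtain ⟨h2, h3⟩ := Finset.mem_erase.1 hu'
    obtain ⟨h4, h5⟩ := Finset.mem_erase.1 h3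
    exact ⟨u, h5, h4, h2⟩
  have hx31 : g2⁻¹ t3 ≠ s1 := by
    intro h
    apply ht31
    rw [← hx12 s1 hs1.2 ht1, ← h, ais]
  have hx32 : g2⁻¹ t3 ≠ s2 := by
    intro h
    apply ht32
    rw [← hx12 s2 hs2.2 ht2, ← h, ais]
  have ht3s : t3 ≠ g1 s3 := fun h => hs3T (h ▸ ht3)
  have hx33 : s3 ≠ g2⁻¹ t3 := by
    intro h
    have h1 : t3 ∈ T := hTT ht3
    rw [← hR1.2.2 s3 hs3, Finset.mem_insert] at h1
    rcases h1 with h1 | h1
    · exact ht3s h1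
    · obtain ⟨i, _, hi⟩ := Finset.mem_image.1 h1
      have h2 : (F i)⁻¹ t3 = g2⁻¹ t3 := by
        calc (F i)⁻¹ t3 = (F i)⁻¹ (F i s3) := by rw [hi]
          _ = s3 := ias _ _
          _ = g2⁻¹ t3 := h
      have h3 := hC2.2.2 t3 ht3
      have h4 : g2⁻¹ t3 ∈ Finset.univ.image fun i => inv3 F i t3 :=
        Finset.mem_image.2 ⟨i, Finset.mem_univ i, h2⟩
      rw [Finset.insert_eq_of_mem h4] at h3
      have h5 : (Finset.univ.image fun i => inv3 F i t3).card ≤ 3 :=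
        Finset.card_image_le.trans (by simp)
      rw [h3, hC2.2.1] at h5
      omega
  have hP : ∀ g, Av H g → g s3 = g1 s3 ∨ g (g2⁻¹ t3) = t3 := by
    intro g hg
    rcases hRC g hg with h | h
    · exact Or.inl (h s3 hs3)
    · right
      rw [← h t3 ht3, ais]
  obtain ⟨a, b, c, d, hnd, k1, k2, k3⟩ := hf2 H g1 hg1 s1 s2 hs12 fun g hg =>
    ⟨hA g hg s1 hs1.2 ht1, hA g hg s2 hs2.2 ht2⟩
  have m1 := mem_of_nodup hnd s3 hs1.1.symm hs2.1.symm
  have m2 := mem_of_nodup hnd (g2⁻¹ t3) hx31 hx32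
  simp only [List.nodup_cons, List.mem_cons, List.not_mem_nil, or_false, not_or, not_false_eq_true,
    List.nodup_nil, and_true] at hnd
  obtain ⟨_, _, ⟨q1, q2, q3⟩, ⟨q4, q5⟩, q6⟩ := hnd
  exact last g1 a b c d s3 (g2⁻¹ t3) t3 q1 q2 q3 q4 q5 q6 (hP _ k1) (hP _ k2) (hP _ k3) ht3s m1
    m2 hx33

end Pool.Agent.H286.CP
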